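import Mathlib

namespace Pool.Agent.H.MP_b621dd_an

open Complex Finset Metric

def Hp : Set ℂ := {s | 0 < s.re}

theorem near {ι : Type} [Fintype ι] (g : ι → ℂ → ℂ) (hd : ∀ i, DifferentiableOn ℂ (g i) Hp)
    (hb : ∀ i, ∃ B, ∀ s ∈ Hp, ‖g i s‖ ≤ B) {ε ρ : ℝ} (hε : 0 < ε) (hρ : 1 ≤ ρ) :
    ∃ z : ℂ, ρ ≤ z.re ∧ ∀ σ : ℝ, z.re / ρ ≤ σ → σ ≤ z.re →
      ∀ i, ‖g i (σ + z.im * I) - g i z‖ ≤ ε := by
  choose B hB using hb
  set n : ℂ → ℝ := fun s => ∑ i, ‖g i s‖ ^ 2 with hn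
  set δ := ε ^ 2 / (16 * ρ) with hδ
  have δ0 : 0 < δ := by positivity
  let 𝒮 : Set ℝ := {S | ∃ T, 0 < T ∧ ∀ s : ℂ, T < s.re → n s ≤ S}
  have ne : 𝒮.Nonempty := ⟨∑ i, B i ^ 2, 1, one_pos, fun s hs => sum_le_sum fun i _ =>
    pow_le_pow_left₀ (norm_nonneg _) (hB i s (lt_trans one_pos hs)) 2⟩
  have bd : BddBelow 𝒮 := ⟨0, fun S ⟨T, _, h⟩ => le_trans (sum_nonneg fun i _ => by positivity)
    (h (T + 1 : ℝ) (by simp))⟩
  obtain ⟨S, ⟨T, T0, hS⟩, hlt⟩ := exists_lt_of_csInf_lt ne (lt_add_of_pos_right _ δ0)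
  obtain ⟨z, hz, hz'⟩ : ∃ z : ℂ, 2 * ρ * T + ρ < z.re ∧ S - δ < n z := by
    by_contra h
    push Not at h
    have := csInf_le bd (⟨_, by positivity, h⟩ : S - δ ∈ 𝒮)
    linarith
  have ρT : T ≤ ρ * T := le_mul_of_one_le_left T0.le hρ
  refine ⟨z, by nlinarith, fun σ h1 h2 i => ?_⟩
  have id : ∀ s, ∑ i, ‖g i s - g i z‖ ^ 2 =
      n s + n z - 2 * (∑ i, g i s * (starRingEnd ℂ) (g i z)).re := by
    intro s
    rw [hn, re_sum, mul_sum, ← sum_add_distrib, ← sum_sub_distrib]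
    refine sum_congr rfl fun i _ => ?_
    simp only [Complex.sq_norm, normSq_sub]
  have mem : ∀ w ∈ ball (0 : ℂ) (z.re - T), T < (z + w).re := by
    intro w hw
    have := abs_re_le_norm w
    rw [mem_ball_zero_iff] at hw
    have := neg_abs_le w.re
    rw [add_re]; linarith
  have zT : n z ≤ S := hS z (by nlinarith)
  set w : ℂ := ((σ - z.re : ℝ) : ℂ) with hw
  have nw : ‖w‖ = z.re - σ := by rw [hw, norm_real, Real.norm_eq_abs, abs_of_nonpos] <;> linarith
  have h3 : z.re / (2 * ρ) ≤ σ - T := by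
    have : T ≤ z.re / (2 * ρ) := by rw [le_div_iff₀ (by positivity)]; nlinarith
    have e : z.re / ρ = 2 * (z.re / (2 * ρ)) := by field_simp
    linarith
  have X0 : 0 < z.re := by nlinarith
  have h4 : 0 < z.re / (2 * ρ) := by positivity
  have hw1 : w ∈ ball (0 : ℂ) (z.re - T) := by rw [mem_ball_zero_iff, nw]; linarith
  have bc := borelCaratheodory (f := fun w => (∑ i, g i (z + w) * (starRingEnd ℂ) (g i z)) - S)
    (M := δ) (R := z.re - T) (z := w) δ0 (by
      refine DifferentiableOn.sub_const (DifferentiableOn.fun_sum fun i _ => ?_) _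
      refine DifferentiableOn.mul_const ((hd i).comp (by fun_prop) fun w hw => ?_) _
      exact lt_trans T0 (mem w hw)) (by
      intro w hw
      have a1 := id (z + w)
      have a2 := hS _ (mem w hw)
      have a3 : 0 ≤ ∑ i, ‖g i (z + w) - g i z‖ ^ 2 := sum_nonneg fun i _ => by positivity
      simp only [Set.mem_ofPred_eq, sub_re, ofReal_re]
      linarith) (by nlinarith) hw1
  have f0 : ‖(∑ i, g i (z + 0) * (starRingEnd ℂ) (g i z)) - S‖ ≤ δ := by
    have : (∑ i, g i (z + 0) * (starRingEnd ℂ) (g i z)) - S = ((n z - S : ℝ) : ℂ) := by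
      simp [hn, mul_conj, Complex.normSq_eq_norm_sq]
    rw [this, norm_real, Real.norm_eq_abs, abs_of_nonpos] <;> linarith
  have e1 : z + w = σ + z.im * I := by
    apply Complex.ext <;> simp [hw]
  have b2 : ‖(∑ i, g i (z + w) * (starRingEnd ℂ) (g i z)) - S‖ ≤ 8 * ρ * δ := by
    refine bc.trans ?_
    rw [nw, ← add_div, div_le_iff₀ (by linarith)]
    have k1 : ‖(∑ i, g i (z + 0) * (starRingEnd ℂ) (g i z)) - S‖ * (z.re - T + (z.re - σ)) ≤
        δ * (2 * z.re) := mul_le_mul f0 (by linarith) (by linarith) δ0.le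
    have k2 : 2 * δ * (z.re - σ) ≤ 2 * δ * z.re := by gcongr; linarith
    have k3 : 8 * ρ * δ * (z.re / (2 * ρ)) = 4 * δ * z.re := by field_simp; ring
    have k4 : 8 * ρ * δ * (z.re / (2 * ρ)) ≤ 8 * ρ * δ * (z.re - T - (z.re - σ)) := by
      gcongr; linarith
    linarith
  have a1 := id (z + w)
  have a2 := hS _ (mem w hw1)
  have a3 := (neg_abs_le _).trans' (neg_le_neg ((abs_re_le_norm _).trans b2))
  simp only [sub_re, ofReal_re] at a3
  have a4 : ‖g i (z + w) - g i z‖ ^ 2 ≤ ∑ i, ‖g i (z + w) - g i z‖ ^ 2 :=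
    single_le_sum (f := fun i => ‖g i (z + w) - g i z‖ ^ 2) (fun i _ => by positivity) (mem_univ i)
  have a5 : 16 * ρ * δ = ε ^ 2 := by rw [hδ]; field_simp
  rw [← e1]
  exact (sq_le_sq₀ (norm_nonneg _) hε.le).1 (by linarith)

noncomputable def T (x : ℝ) : ℝ := x / (1 + x) ^ 2

theorem T_nn {x : ℝ} (h : 0 ≤ x) : 0 ≤ T x := by unfold T; positivity

theorem T_sum {A r : ℝ} (hA : 2 ≤ A) (hr : 0 ≤ r) :
    Summable (fun l : ℕ => T (r / A ^ l)) ∧ ∑' l : ℕ, T (r / A ^ l) ≤ 2 * (r / (1 + r)) := by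
  have st : ∀ x : ℝ, 0 ≤ x → T x ≤ 2 * (x / (1 + x)) - 2 * (x / A / (1 + x / A)) := by
    intro x hx
    have h1 : x / A ≤ x / 2 := by gcongr
    have h0 : 0 ≤ x / A := by positivity
    generalize x / A = y at h1 h0
    have : 2 * (x / (1 + x)) - 2 * (y / (1 + y)) = 2 * (x - y) / ((1 + x) * (1 + y)) := by
      field_simp; ring
    rw [this, T, sq]
    gcongr <;> linarith
  have h : ∀ n, ∑ l ∈ range n, T (r / A ^ l) ≤
      2 * (r / (1 + r)) - 2 * (r / A ^ n / (1 + r / A ^ n)) := by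
    intro n
    induction n with
    | zero => simp
    | succ n ih =>
      have := st (r / A ^ n) (by positivity)
      rw [sum_range_succ, pow_succ, ← div_div]
      linarith
  have h' : ∀ n, ∑ l ∈ range n, T (r / A ^ l) ≤ 2 * (r / (1 + r)) := fun n =>
    (h n).trans (sub_le_self _ (by positivity))
  exact ⟨summable_of_sum_range_le (fun l => T_nn (by positivity)) h',
    Real.tsum_le_of_sum_range_le (fun l => T_nn (by positivity)) h'⟩

theorem T_two {A r : ℝ} (hA : 2 ≤ A) (hr : 0 ≤ r) : ∑' l : ℕ, T (r / A ^ l) ≤ 2 := by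
  have := (T_sum hA hr).2
  have : r / (1 + r) ≤ 1 := by rw [div_le_one (by positivity)]; linarith
  linarith

theorem T_off {A : ℝ} (hA : 2 ≤ A) (p : ℕ) :
    ∑' l : ℕ, (if l = p then 0 else T (A ^ p / A ^ l)) ≤ 4 / A := by
  have A0 : 0 < A := by linarith
  have hs : Summable fun l : ℕ => if l = p then 0 else T (A ^ p / A ^ l) :=
    Summable.of_nonneg_of_le (fun l => by split_ifs; exacts [le_rfl, T_nn (by positivity)])
      (fun l => by split_ifs; exacts [T_nn (by positivity), le_rfl])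
      (T_sum hA (r := A ^ p) (by positivity)).1
  rw [← hs.sum_add_tsum_nat_add (p + 1), sum_range_succ, if_pos rfl]
  have h1 : ∑' l : ℕ, (if l + (p + 1) = p then 0 else T (A ^ p / A ^ (l + (p + 1)))) ≤ 2 / A := by
    have : ∀ l : ℕ, (if l + (p + 1) = p then 0 else T (A ^ p / A ^ (l + (p + 1)))) =
        T (A⁻¹ / A ^ l) := fun l => by
      rw [if_neg (by omega)]
      congr 1
      field_simp
      ring
    simp only [this]
    refine (T_sum hA (by positivity)).2.trans ?_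
    rw [div_eq_mul_inv 2]
    gcongr
    exact div_le_self (by positivity) (le_add_of_nonneg_right (by positivity))
  have h2 : ∀ n, A * ∑ l ∈ range n, A ^ l ≤ 2 * A ^ n := by
    intro n
    induction n with
    | zero => simp
    | succ n ih =>
      rw [sum_range_succ, pow_succ]
      have : 0 < A ^ n := by positivity
      nlinarith
  have h3 : ∑ l ∈ range p, (if l = p then 0 else T (A ^ p / A ^ l)) ≤
      (∑ l ∈ range p, A ^ l) / A ^ p := by
    rw [sum_div]
    refine sum_le_sum fun l _ => ?_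
    split_ifs
    · positivity
    · have : 0 < A ^ p / A ^ l := by positivity
      rw [T, ← inv_div (A ^ p), div_le_iff₀ (by positivity), ← div_eq_inv_mul,
        le_div_iff₀ this]
      nlinarith
  have h4 : (∑ l ∈ range p, A ^ l) / A ^ p ≤ 2 / A := by
    rw [div_le_div_iff₀ (by positivity) A0]
    linarith [h2 p]
  have : 4 / A = 2 / A + 2 / A := by ring
  linarith

theorem xe {x : ℝ} (h : 0 ≤ x) : x * Real.exp (-x) ≤ 2 * T x := by
  have := Real.quadratic_le_exp_of_nonneg h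
  rw [T, Real.exp_neg, ← div_eq_mul_inv, ← mul_div_assoc,
    div_le_div_iff₀ (by positivity) (by positivity)]
  nlinarith

noncomputable def tm (A : ℝ) (c : ℕ → ℂ) (s : ℂ) (l : ℕ) : ℂ :=
  c l * (exp (-(s / A ^ l)) / A ^ l)

theorem tm_le {A : ℝ} (hA : 2 ≤ A) {c : ℕ → ℂ} (hc : ∀ l, ‖c l‖ ≤ 1) {s : ℂ} (hs : s ∈ Hp)
    (l : ℕ) : s.re * ‖tm A c s l‖ ≤ 2 * T (s.re / A ^ l) := by
  have s0 : 0 < s.re := hs
  have A0 : 0 < A := by linarith
  refine le_trans ?_ (xe (by positivity))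
  have : (-(s / A ^ l)).re = -(s.re / A ^ l) := by
    rw [neg_re, ← ofReal_pow, div_ofReal_re]
  rw [tm, norm_mul, norm_div, norm_exp, this, norm_pow, norm_real, Real.norm_of_nonneg A0.le]
  calc _ ≤ s.re * (1 * (Real.exp (-(s.re / A ^ l)) / A ^ l)) := by gcongr; exact hc l
    _ = _ := by ring

theorem tm_sum {A : ℝ} (hA : 2 ≤ A) {c : ℕ → ℂ} (hc : ∀ l, ‖c l‖ ≤ 1) {s : ℂ} (hs : s ∈ Hp) :
    Summable fun l => ‖tm A c s l‖ := by
  have s0 : 0 < s.re := hs
  refine (summable_mul_left_iff s0.ne').1 (Summable.of_nonneg_of_le (fun l => by positivity)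
    (tm_le hA hc hs) ((T_sum hA s0.le).1.mul_left 2))

theorem tm_dom {A : ℝ} (hA : 2 ≤ A) {c : ℕ → ℂ} (hc : ∀ l, ‖c l‖ ≤ 1) {s : ℂ} (p : ℕ)
    (hp : s.re = A ^ p) : s.re * ‖∑' l, tm A c s l - tm A c s p‖ ≤ 8 / A := by
  have s0 : 0 < s.re := by rw [hp]; positivity
  have h1 := tm_sum hA hc s0
  rw [h1.of_norm.tsum_eq_add_tsum_ite p, add_sub_cancel_left]
  have h2 : Summable fun l => ‖if l = p then 0 else tm A c s l‖ :=
    Summable.of_nonneg_of_le (fun l => norm_nonneg _) (fun l => by split_ifs <;> simp) h1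
  have hs : Summable fun l : ℕ => if l = p then 0 else T (A ^ p / A ^ l) :=
    Summable.of_nonneg_of_le (fun l => by split_ifs; exacts [le_rfl, T_nn (by positivity)])
      (fun l => by split_ifs; exacts [T_nn (by positivity), le_rfl])
      (T_sum hA (r := A ^ p) (by positivity)).1
  calc _ ≤ s.re * ∑' l, ‖if l = p then 0 else tm A c s l‖ := by
        gcongr; exact norm_tsum_le_tsum_norm h2
    _ = ∑' l, s.re * ‖if l = p then 0 else tm A c s l‖ := tsum_mul_left.symm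
    _ ≤ ∑' l, 2 * (if l = p then 0 else T (A ^ p / A ^ l)) := by
        refine (h2.mul_left _).tsum_le_tsum (fun l => ?_) (hs.mul_left 2)
        split_ifs
        · simp
        · rw [← hp]; exact tm_le hA hc s0 l
    _ ≤ 2 * (4 / A) := by rw [tsum_mul_left]; gcongr; exact T_off hA p
    _ = _ := by ring

theorem core (N : ℕ) (a : Fin N → ℂ → ℂ) (C : ℝ) (C0 : 0 ≤ C)
    (ha : ∀ i, ∀ s ∈ Hp, s.re * ‖a i s‖ ≤ C)
    (h : ∀ A : ℝ, 2 ≤ A → ∀ c : ℕ → ℂ, (∀ l, ‖c l‖ ≤ 1) → ∃ g : Fin N → ℂ → ℂ,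
      (∀ i, DifferentiableOn ℂ (g i) Hp) ∧ (∀ i, ∃ B, ∀ s ∈ Hp, ‖g i s‖ ≤ B) ∧
      ∀ s ∈ Hp, ∑' l, tm A c s l = ∑ i, g i s * a i s) : False := by
  set e0 := Real.exp (-1) with he
  have e1 : 0 < e0 := Real.exp_pos _
  set A := 2 + 32 * (N + 1) / e0 with hA
  have A2 : 2 ≤ A := le_add_of_nonneg_right (by positivity)
  have A0 : 0 < A := by linarith
  let c : Fin (N + 1) → ℕ → ℂ := fun j l => if l % (N + 1) = j then 1 else 0
  have hc : ∀ j l, ‖c j l‖ ≤ 1 := fun j l => by simp only [c]; split_ifs <;> simp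
  choose g hd hb hg using fun j => h A A2 (c j) (hc j)
  set ε := e0 / (4 * ((N + 1) * (N * C) + 1)) with hε
  obtain ⟨z, hz, hz'⟩ := near (fun u : Fin (N + 1) × Fin N => g u.1 u.2) (fun u => hd _ _)
    (fun u => hb _ _) (ε := ε) (ρ := A ^ (N + 1)) (by positivity) (one_le_pow₀ (by linarith))
  obtain ⟨b, hb1, hb0⟩ := (Submodule.ne_bot_iff _).1 (LinearMap.ker_ne_bot_of_finrank_lt
    (f := (Matrix.of fun (j : Fin (N + 1)) (i : Fin N) => g j i z).vecMulLinear) (by simp))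
  have hb2 : ∀ i, ∑ j, b j * g j i z = 0 := fun i => congrFun hb1 i
  obtain ⟨m, -, hm⟩ := exists_max_image univ (fun j => ‖b j‖) univ_nonempty
  have bm : 0 < ‖b m‖ := by
    obtain ⟨j, hj⟩ := Function.ne_iff.1 hb0
    exact (norm_pos_iff.2 hj).trans_le (hm j (mem_univ _))
  obtain ⟨n, hn1, hn2⟩ := exists_nat_pow_near (x := z.re) (y := A)
    (le_trans (one_le_pow₀ (by linarith)) hz) (by linarith)
  have nN : N + 1 < n + 1 := (pow_lt_pow_iff_right₀ (by linarith : 1 < A)).1 (hz.trans_lt hn2)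
  obtain ⟨p, p1, p2, p3⟩ : ∃ p, p % (N + 1) = m ∧ p ≤ n ∧ n + 1 ≤ p + (N + 1) := by
    have := Nat.div_add_mod (n - m) (N + 1)
    have := Nat.mod_lt (n - m) (y := N + 1) (Nat.succ_pos N)
    have := m.2
    refine ⟨m + (N + 1) * ((n - m) / (N + 1)), ?_, by omega, by omega⟩
    rw [Nat.add_mul_mod_self_left, Nat.mod_eq_of_lt m.2]
  set s : ℂ := ((A ^ p : ℝ) : ℂ) + z.im * I with hs
  have sr : s.re = A ^ p := by rw [hs, add_re, ofReal_re]; simp
  have s0 : 0 < s.re := by rw [sr]; positivity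
  have cl := hz' (A ^ p) (by
    rw [div_le_iff₀ (by positivity), ← pow_add]
    exact hn2.le.trans (pow_le_pow_right₀ (by linarith) p3))
    ((pow_le_pow_right₀ (by linarith) p2).trans hn1)
  have k1 : ∑ j, b j * ∑' l, tm A (c j) s l = ∑ j, b j * ∑ i, (g j i s - g j i z) * a i s := by
    have : ∑ j, b j * ∑ i, g j i z * a i s = 0 := by
      simp only [mul_sum, ← mul_assoc]
      rw [sum_comm]
      simp only [← sum_mul, hb2, zero_mul, sum_const_zero]
    simp only [sub_mul, sum_sub_distrib, mul_sub, this, sub_zero, hg _ s s0]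
  have k2 : ∑ j, b j * tm A (c j) s p = b m * (exp (-(s / A ^ p)) / A ^ p) := by
    rw [sum_eq_single m]
    · simp [tm, c, p1]
    · intro j _ hj
      have : ¬ (m : ℕ) = j := fun e => hj (Fin.ext e.symm)
      simp [tm, c, p1, this]
    · simp
  have k3 : s.re * ‖b m * (exp (-(s / A ^ p)) / A ^ p)‖ = ‖b m‖ * e0 := by
    have : (-(s / A ^ p)).re = -1 := by
      rw [neg_re, ← ofReal_pow, div_ofReal_re, sr, div_self (by positivity)]
    rw [norm_mul, norm_div, norm_exp, this, norm_pow, norm_real, Real.norm_of_nonneg A0.le, sr]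
    field_simp
    rfl
  have k4 : b m * (exp (-(s / A ^ p)) / A ^ p) = ∑ j, b j * ((∑ i, (g j i s - g j i z) * a i s) -
      (∑' l, tm A (c j) s l - tm A (c j) s p)) := by
    simp only [mul_sub, sum_sub_distrib]
    rw [← k1, k2]; ring
  have k5 : ‖b m‖ * e0 ≤ ∑ _j : Fin (N + 1), ‖b m‖ * (N * (ε * C) + 8 / A) := by
    rw [← k3, k4]
    refine (mul_le_mul_of_nonneg_left (norm_sum_le _ _) s0.le).trans ?_
    rw [mul_sum]
    refine sum_le_sum fun j _ => ?_
    rw [norm_mul, mul_left_comm]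
    refine mul_le_mul (hm j (mem_univ _)) ?_ (by positivity) (norm_nonneg _)
    refine (mul_le_mul_of_nonneg_left (norm_sub_le _ _) s0.le).trans ?_
    rw [mul_add]
    refine add_le_add ?_ (tm_dom A2 (hc j) p sr)
    refine (mul_le_mul_of_nonneg_left (norm_sum_le _ _) s0.le).trans ?_
    rw [mul_sum]
    refine (sum_le_card_nsmul _ _ (ε * C) fun i _ => ?_).trans (by simp)
    rw [norm_mul, mul_left_comm]
    exact mul_le_mul (cl (j, i)) (ha i s s0) (by positivity) (by positivity)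
  simp only [sum_const, card_univ, Fintype.card_fin, nsmul_eq_mul] at k5
  push_cast at k5
  have k6 : (N + 1) * (N * (ε * C)) ≤ e0 / 4 := by
    have : ε * ((N + 1) * (N * C) + 1) = e0 / 4 := by rw [hε]; field_simp
    have : 0 < ε := by positivity
    nlinarith
  have k7 : (N + 1) * (8 / A) ≤ e0 / 4 := by
    rw [← mul_div_assoc, div_le_div_iff₀ A0 (by norm_num), hA, mul_add,
      mul_div_cancel₀ _ e1.ne']
    linarith
  have k8 : e0 ≤ (N + 1) * (N * (ε * C) + 8 / A) := by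
    rw [mul_left_comm] at k5
    exact le_of_mul_le_mul_left k5 bm
  linarith

end Pool.Agent.H.MP_b621dd_an
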