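import Mathlib
import Pool.Agent.H.MP_b621dd_an.A

namespace Pool.Agent.H.MP_b621dd_an

open Complex Finset Metric

noncomputable def ph : ℂ → ℂ := dslope (fun u => -exp (-u)) 0

theorem ph_diff : Differentiable ℂ ph :=
  differentiableOn_univ.1 ((differentiableOn_dslope Filter.univ_mem).2 (by fun_prop))

theorem ph_zero : ph 0 = 1 := by
  rw [ph, dslope_same]
  have : HasDerivAt (fun u : ℂ => -exp (-u)) (-(exp (-0) * -1)) 0 :=
    ((hasDerivAt_neg (0 : ℂ)).cexp).neg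
  rw [this.deriv]; simp

theorem ph_mul (u : ℂ) : u * ph u = 1 - exp (-u) := by
  have := sub_smul_dslope (fun u : ℂ => -exp (-u)) 0 u
  simp only [sub_zero, smul_eq_mul, neg_zero, exp_zero] at this
  rw [ph, this]; ring

noncomputable def E (z : ℂ × ℂ) : ℂ := exp (-(z.2 / 2)) * ph ((z.1 - z.2) / 2)

theorem E_cd : ContDiff ℂ 1 fun z => E z ^ 2 := by
  have : ContDiff ℂ 1 ph := ph_diff.contDiff
  unfold E
  fun_prop

theorem E_diag (p : ℂ) : E (p, p) ^ 2 = exp (-p) := by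
  simp only [E, sub_self, zero_div, ph_zero, mul_one]
  rw [sq, ← exp_add]; congr 1; ring

theorem E_mul (z : ℂ × ℂ) : (z.1 - z.2) / 2 * E z = exp (-(z.2 / 2)) - exp (-(z.1 / 2)) := by
  rw [E, mul_left_comm, ph_mul, mul_sub, ← exp_add]
  congr 2 <;> ring

theorem ex_le {p : ℂ} (h : 0 ≤ p.re) : ‖exp (-(p / 2))‖ ≤ 1 := by
  rw [norm_exp, Real.exp_le_one_iff]
  simp only [neg_re, div_ofNat_re]
  linarith

theorem E_le {z : ℂ × ℂ} (h1 : 0 ≤ z.1.re) (h2 : 0 ≤ z.2.re) :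
    ‖E z‖ ≤ 1 ∧ ‖z.1 - z.2‖ * ‖E z‖ ≤ 4 := by
  have e : ‖z.1 - z.2‖ / 2 * ‖E z‖ = ‖exp (-(z.2 / 2)) - exp (-(z.1 / 2))‖ := by
    rw [← E_mul, norm_mul, norm_div]; simp
  constructor
  · by_cases h : z.1 = z.2
    · simpa [E, h, ph_zero] using ex_le h2
    · have mv := Convex.norm_image_sub_le_of_norm_hasDerivWithin_le (𝕜 := ℂ)
        (f := fun p : ℂ => exp (-(p / 2))) (f' := fun p => exp (-(p / 2)) * (-(1 / 2)))
        (s := {p : ℂ | 0 ≤ p.re}) (C := 1 / 2) (x := z.1) (y := z.2)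
        (fun p _ => (((hasDerivAt_id p).div_const 2).neg.cexp).hasDerivWithinAt)
        (fun p hp => by
          rw [norm_mul, norm_neg]
          have := ex_le hp
          have e : ‖(1 / 2 : ℂ)‖ = 1 / 2 := by simp
          rw [e]; linarith) (convex_halfSpace_re_ge 0) h1 h2
      have : 0 < ‖z.1 - z.2‖ := norm_pos_iff.2 (sub_ne_zero.2 h)
      rw [← e, norm_sub_rev z.2] at mv
      nlinarith
  · have := norm_sub_le (exp (-(z.2 / 2))) (exp (-(z.1 / 2)))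
    have := ex_le h1
    have := ex_le h2
    linarith

noncomputable def tk (A : ℝ) (c : ℕ → ℂ) (l : ℕ) (z : ℂ × ℂ) : ℂ :=
  c l / A ^ l * E (((A : ℂ) ^ l)⁻¹ • z) ^ 2

noncomputable def kap (A : ℝ) (c : ℕ → ℂ) (z : ℂ × ℂ) : ℂ := ∑' l, tk A c l z

variable {A : ℝ} {c : ℕ → ℂ}

theorem kap_diag (s : ℂ) : kap A c (s, s) = ∑' l, tm A c s l := by
  refine tsum_congr fun l => ?_
  rw [tk, tm, Prod.smul_mk, E_diag, smul_eq_mul, ← div_eq_inv_mul]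
  ring

theorem co_le (hA : 2 ≤ A) (hc : ∀ l, ‖c l‖ ≤ 1) (l : ℕ) :
    ‖((A : ℂ) ^ l)⁻¹‖ = (A ^ l)⁻¹ ∧ ‖c l / A ^ l‖ ≤ (A ^ l)⁻¹ ∧ (A ^ l)⁻¹ ≤ (1 / 2) ^ l ∧
      (A ^ l)⁻¹ ≤ 1 := by
  have A0 : 0 < A := by linarith
  have e : ‖((A : ℂ) ^ l)⁻¹‖ = (A ^ l)⁻¹ := by
    rw [norm_inv, norm_pow, norm_real, Real.norm_of_nonneg A0.le]
  refine ⟨e, ?_, ?_, inv_le_one_of_one_le₀ (one_le_pow₀ (by linarith))⟩
  · rw [div_eq_mul_inv, norm_mul, e]
    exact mul_le_of_le_one_left (by positivity) (hc l)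
  · rw [one_div, inv_pow]; gcongr

theorem kap_diff (hA : 2 ≤ A) (hc : ∀ l, ‖c l‖ ≤ 1) : Differentiable ℂ (kap A c) := by
  intro x
  obtain ⟨M, hM⟩ := (isCompact_closedBall (0 : ℂ × ℂ) (‖x‖ + 1)).exists_bound_of_continuousOn
    (E_cd.continuous_fderiv one_ne_zero).continuousOn
  have M0 : 0 ≤ M := (norm_nonneg _).trans (hM 0 (mem_closedBall_self (by positivity)))
  refine (hasFDerivAt_tsum_of_isPreconnected (u := fun l => (1 / 2) ^ l * M) (x₀ := 0)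
    (s := ball 0 (‖x‖ + 1)) (f := tk A c)
    (f' := fun l z => (c l / A ^ l) • (fderiv ℂ (fun z => E z ^ 2) (((A : ℂ) ^ l)⁻¹ • z)).comp
      (((A : ℂ) ^ l)⁻¹ • ContinuousLinearMap.id ℂ (ℂ × ℂ)))
    (summable_geometric_two.mul_right M) isOpen_ball (convex_ball _ _).isPreconnected
    (fun l z _ => ?_) (fun l z hz => ?_) (mem_ball_self (by positivity)) ?_
    (by simp)).differentiableAt
  · have h1 : HasFDerivAt (fun z : ℂ × ℂ => ((A : ℂ) ^ l)⁻¹ • z)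
        (((A : ℂ) ^ l)⁻¹ • ContinuousLinearMap.id ℂ (ℂ × ℂ)) z :=
      (hasFDerivAt_id z).fun_const_smul _
    have h2 := (E_cd.differentiable one_ne_zero (((A : ℂ) ^ l)⁻¹ • z)).hasFDerivAt.comp z h1
    exact h2.const_mul (c l / A ^ l)
  · obtain ⟨h1, h2, h3, h4⟩ := co_le hA hc l
    rw [norm_smul]
    refine mul_le_mul (h2.trans h3) ((ContinuousLinearMap.opNorm_comp_le _ _).trans ?_)
      (norm_nonneg _) (by positivity)
    have : ‖((A : ℂ) ^ l)⁻¹ • ContinuousLinearMap.id ℂ (ℂ × ℂ)‖ ≤ 1 := by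
      rw [norm_smul, h1]
      exact mul_le_one₀ h4 (norm_nonneg _) ContinuousLinearMap.norm_id_le
    refine (mul_le_mul (hM _ ?_) this (norm_nonneg _) M0).trans (by simp)
    rw [mem_closedBall_zero_iff, norm_smul, h1]
    exact (mul_le_of_le_one_left (norm_nonneg _) h4).trans (mem_ball_zero_iff.1 hz).le
  · refine Summable.of_norm_bounded (summable_geometric_two.mul_right ‖E 0 ^ 2‖) fun l => ?_
    obtain ⟨h1, h2, h3, h4⟩ := co_le hA hc l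
    rw [tk, smul_zero, norm_mul]
    gcongr
    exact h2.trans h3

theorem kap_le (hA : 2 ≤ A) (hc : ∀ l, ‖c l‖ ≤ 1) {z : ℂ × ℂ} (h1 : z.1 ∈ Hp) (h2 : z.2 ∈ Hp) :
    ‖kap A c z‖ ≤ 2 ∧ ‖(z.1 - z.2) * kap A c z‖ ≤ 68 := by
  have A0 : 0 < A := by linarith
  have hE : ∀ l : ℕ, ‖E (((A : ℂ) ^ l)⁻¹ • z)‖ ≤ 1 ∧
      ‖z.1 - z.2‖ / A ^ l * ‖E (((A : ℂ) ^ l)⁻¹ • z)‖ ≤ 4 := fun l => by
    have r : ∀ s ∈ Hp, 0 ≤ (((A : ℂ) ^ l)⁻¹ • s).re := fun s (hs : 0 < s.re) => by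
      rw [smul_eq_mul, ← ofReal_pow, ← ofReal_inv, re_ofReal_mul]; positivity
    have := E_le (z := ((A : ℂ) ^ l)⁻¹ • z) (r _ h1) (r _ h2)
    rwa [Prod.smul_fst, Prod.smul_snd, ← smul_sub, norm_smul, (co_le hA hc l).1,
      ← div_eq_inv_mul] at this
  constructor
  · refine tsum_of_norm_bounded hasSum_geometric_two fun l => ?_
    obtain ⟨-, h2, h3, -⟩ := co_le hA hc l
    rw [tk, norm_mul, norm_pow]
    exact (mul_le_of_le_one_right (norm_nonneg _) (pow_le_one₀ (norm_nonneg _) (hE l).1)).trans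
      (h2.trans h3)
  · rw [kap, ← tsum_mul_left]
    refine (tsum_of_norm_bounded
      ((T_sum hA (norm_nonneg (z.1 - z.2))).1.hasSum.mul_left 34) fun l => ?_).trans
      (by linarith [T_two hA (norm_nonneg (z.1 - z.2))])
    obtain ⟨-, h2, -, -⟩ := co_le hA hc l
    obtain ⟨e1, e2⟩ := hE l
    rw [tk, norm_mul, norm_mul, norm_pow]
    have e0 := norm_nonneg (E (((A : ℂ) ^ l)⁻¹ • z))
    generalize ‖E (((A : ℂ) ^ l)⁻¹ • z)‖ = e at e0 e1 e2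
    calc _ ≤ ‖z.1 - z.2‖ * ((A ^ l)⁻¹ * e ^ 2) := by gcongr
      _ = ‖z.1 - z.2‖ / A ^ l * e ^ 2 := by ring
      _ ≤ _ := by
        have x0 : 0 ≤ ‖z.1 - z.2‖ / A ^ l := by positivity
        generalize ‖z.1 - z.2‖ / A ^ l = x at x0 e2
        rw [T, ← mul_div_assoc, le_div_iff₀ (by positivity), mul_assoc, mul_comm 34]
        refine mul_le_mul_of_nonneg_left ?_ x0
        have := mul_nonneg x0 e0
        nlinarith

theorem psi_le (hA : 2 ≤ A) (hc : ∀ l, ‖c l‖ ≤ 1) {s : ℂ} (hs : s ∈ Hp) :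
    s.re * ‖kap A c (s, s)‖ ≤ 4 := by
  have s0 : 0 < s.re := hs
  have h1 := tm_sum hA hc hs
  rw [kap_diag]
  calc _ ≤ s.re * ∑' l, ‖tm A c s l‖ := by gcongr; exact norm_tsum_le_tsum_norm h1
    _ = ∑' l, s.re * ‖tm A c s l‖ := tsum_mul_left.symm
    _ ≤ ∑' l : ℕ, 2 * T (s.re / A ^ l) :=
        (h1.mul_left _).tsum_le_tsum (tm_le hA hc hs) ((T_sum hA s0.le).1.mul_left 2)
    _ ≤ 4 := by rw [tsum_mul_left]; linarith [T_two hA s0.le]

/-- the Cayley map and its inverse -/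
noncomputable def cy (s : ℂ) : ℂ := (s - 1) / (s + 1)

noncomputable def ci (x : ℂ) : ℂ := (1 + x) / (1 - x)

theorem ne1 {s : ℂ} (hs : s ∈ Hp) : s + 1 ≠ 0 := fun h => by
  have s0 : 0 < s.re := hs
  have := congrArg re h
  simp at this
  linarith

theorem ne2 {x : ℂ} (hx : ‖x‖ < 1) : 1 - x ≠ 0 := fun h => by
  rw [← sub_eq_zero.1 h] at hx
  simp at hx

theorem cy_diff : DifferentiableOn ℂ cy Hp :=
  DifferentiableOn.div (by fun_prop) (by fun_prop) fun _ hs => ne1 hs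

theorem ci_diff {x : ℂ} (hx : ‖x‖ < 1) : DifferentiableAt ℂ ci x :=
  DifferentiableAt.div (by fun_prop) (by fun_prop) (ne2 hx)

theorem ci_cy {s : ℂ} (hs : s ∈ Hp) : ci (cy s) = s := by
  have := ne1 hs
  unfold ci cy
  field_simp
  ring

theorem ci_re {x : ℂ} (hx : ‖x‖ < 1) : (ci x).re * ‖1 - x‖ ^ 2 = 1 - ‖x‖ ^ 2 := by
  have := normSq_pos.2 (ne2 hx)
  rw [ci, div_re, Complex.sq_norm, Complex.sq_norm]
  field_simp
  simp [normSq_apply]
  ring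

theorem ci_mem {x : ℂ} (hx : ‖x‖ < 1) : ci x ∈ Hp := by
  have h := ci_re hx
  have : 0 < ‖1 - x‖ ^ 2 := pow_pos (norm_pos_iff.2 (ne2 hx)) 2
  have : 0 < 1 - ‖x‖ ^ 2 := by nlinarith [norm_nonneg x]
  by_contra hn
  have : (ci x).re ≤ 0 := not_lt.1 hn
  nlinarith

theorem cy_mem {s : ℂ} (hs : s ∈ Hp) : ‖cy s‖ < 1 := by
  have s0 : 0 < s.re := hs
  rw [cy, norm_div, div_lt_one (norm_pos_iff.2 (ne1 hs)), ← sq_lt_sq₀ (norm_nonneg _)
    (norm_nonneg _), Complex.sq_norm, Complex.sq_norm]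
  simp [normSq_apply]
  linarith

theorem maxp {f : ℂ → ℂ} {z : ℂ} {r C : ℝ} (hr : 0 < r) (hd : DifferentiableOn ℂ f (closedBall z r))
    (h : ∀ w, ‖w - z‖ = r → ‖f w‖ ≤ C) : ‖f z‖ ≤ C :=
  norm_le_of_forall_mem_frontier_norm_le (U := ball z r) isBounded_ball
    (DifferentiableOn.diffContOnCl (by rwa [closure_ball _ hr.ne']))
    (fun w hw => h w (by rwa [frontier_ball _ hr.ne', mem_sphere_iff_norm] at hw))
    (subset_closure (mem_ball_self hr))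

end Pool.Agent.H.MP_b621dd_an
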